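import Mathlib
import Pool.Agent.Helper766.RealAxis

set_option autoImplicit false

open Polynomial Finset

namespace Pool.Agent.Results.MP_6cc408_an.RealAxisSharp

/-- The class `P_N`: real polynomials of degree `N` with `p(0) = 0`, `p'(0) = 1` which are injective
on the open unit disc. -/
def InClass (N : ℕ) (p : ℝ[X]) : Prop :=
  p.natDegree = N ∧ p.coeff 0 = 0 ∧ p.coeff 1 = 1 ∧
    Set.InjOn (fun z : ℂ => aeval z p) (Metric.ball (0 : ℂ) 1)

/-- The image `p(D)` of the open unit disc. -/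
def image (p : ℝ[X]) : Set ℂ := (fun z : ℂ => aeval z p) '' Metric.ball (0 : ℂ) 1

/-- The Koebe radius `R_N` of the class: the supremum of all `r` such that the disc `|w| < r` is
contained in `p(D)` for every `p` in the class. -/
noncomputable def koebeRadius (N : ℕ) : ℝ :=
  sSup {r : ℝ | ∀ p : ℝ[X], InClass N p → Metric.ball (0 : ℂ) r ⊆ image p}

open Pool.Agent.Helper766

lemma deriv_zero {p : ℝ[X]} (h : p.coeff 1 = 1) : (derivative p).eval 0 = 1 := by
  rw [← coeff_zero_eq_eval_zero, coeff_derivative, h]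
  simp

lemma coef_top {N : ℕ} (hN : 1 ≤ N) : coef N N ≠ 0 := by
  rw [coef_eq hN]
  have hM : (0 : ℝ) < (N : ℝ) + 2 := by positivity
  have hN1 : (1 : ℝ) ≤ N := by exact_mod_cast hN
  unfold bc
  set φ : ℝ := 2 * Real.pi / ((N + 2 : ℕ) : ℝ) with hφ
  have hMφ : ((N : ℝ) + 2) * φ = 2 * Real.pi := by
    rw [hφ]; push_cast; field_simp
  have h1 : (N : ℝ) * φ = 2 * Real.pi - 2 * φ := by
    linear_combination hMφ
  rw [h1, Real.cos_two_pi_sub, Real.sin_two_pi_sub]
  have hφ0 : 0 < φ := by positivity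
  have hφπ : φ < Real.pi := by
    have : 3 * φ ≤ 2 * Real.pi := by nlinarith
    linarith [Real.pi_pos]
  have hs : 0 < Real.sin φ := Real.sin_pos_of_pos_of_lt_pi hφ0 hφπ
  have hc : 0 < 1 - Real.cos φ := by
    have h : Real.cos φ < Real.cos 0 :=
      Real.cos_lt_cos_of_nonneg_of_le_pi le_rfl hφπ.le hφ0
    rw [Real.cos_zero] at h
    linarith
  rw [Real.cos_two_mul, Real.sin_two_mul]
  push_cast
  have e : (1 - (2 * Real.cos φ ^ 2 - 1)) / (1 - Real.cos φ) +
      ((N : ℝ) + 2 - N) * -(2 * Real.sin φ * Real.cos φ) / Real.sin φ = 2 * (1 - Real.cos φ) := by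
    field_simp
    ring
  rw [e]
  positivity

lemma FN_coeff (N j : ℕ) : (FN N).coeff j = if 1 ≤ j ∧ j ≤ N then coef N j else 0 := by
  unfold FN
  rw [finsetSum_coeff]
  simp only [coeff_C_mul, coeff_X_pow, mul_ite, mul_one, mul_zero]
  rw [Finset.sum_ite_eq]
  simp only [mem_Icc]

lemma FN_natDegree {N : ℕ} (hN : 1 ≤ N) : (FN N).natDegree = N := by
  apply le_antisymm
  · rw [natDegree_le_iff_coeff_eq_zero]
    intro j hj
    rw [FN_coeff]
    split_ifs with h
    · omega
    · rfl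
  · apply le_natDegree_of_ne_zero
    rw [FN_coeff, if_pos ⟨hN, le_rfl⟩]
    exact coef_top hN

lemma FN_inClass {N : ℕ} (hN : 1 ≤ N) : InClass N (FN N) := by
  refine ⟨FN_natDegree hN, ?_, ?_, FN_injOn hN⟩
  · rw [FN_coeff]; simp
  · rw [FN_coeff, if_pos ⟨le_rfl, hN⟩, coef_one hN]

lemma strictMono_real {p : ℝ[X]} {N : ℕ} (hp : InClass N p) :
    StrictMonoOn (fun x : ℝ => p.eval x) (Set.Ioo (-1) 1) := by
  have hinj : Set.InjOn (fun x : ℝ => p.eval x) (Set.Ioo (-1) 1) := by
    intro x hx y hy h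
    have h2 : aeval (x : ℂ) p = aeval (y : ℂ) p := by
      rw [aeval_ofReal', aeval_ofReal']
      exact congrArg _ h
    have := hp.2.2.2 (by
        rw [mem_ball_zero_iff, Complex.norm_real, Real.norm_eq_abs, abs_lt]; exact hx)
      (by rw [mem_ball_zero_iff, Complex.norm_real, Real.norm_eq_abs, abs_lt]; exact hy) h2
    exact_mod_cast this
  have hcont : ContinuousOn (fun x : ℝ => p.eval x) (Set.Ioo (-1) 1) := p.continuous.continuousOn
  rcases hcont.strictMonoOn_of_injOn_Ioo (by norm_num) hinj with h | h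
  · exact h
  · exfalso
    -- derivative at 0 is 1
    have hd : HasDerivAt (fun x : ℝ => p.eval x) 1 0 := by
      have := p.hasDerivAt 0
      rwa [deriv_zero hp.2.2.1] at this
    have hslope := (hasDerivAt_iff_tendsto_slope.mp hd)
    have hslope' : Filter.Tendsto (slope (fun x : ℝ => p.eval x) 0)
        (nhdsWithin 0 (Set.Ioi 0)) (nhds 1) := by
      apply hslope.mono_left
      apply nhdsWithin_mono
      intro x hx
      exact (ne_of_gt hx)
    have h5 := hslope'.eventually (lt_mem_nhds one_pos)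
    have h6 : ∀ᶠ y in nhdsWithin (0 : ℝ) (Set.Ioi 0), y ∈ Set.Ioo (0 : ℝ) 1 :=
      Ioo_mem_nhdsGT one_pos
    obtain ⟨y, hy⟩ := (h5.and h6).exists
    have h7 := hy.1
    rw [slope_def_field, sub_zero] at h7
    have h8 := (div_pos_iff_of_pos_right hy.2.1).mp h7
    have h9 := h (show (0 : ℝ) ∈ Set.Ioo (-1 : ℝ) 1 by norm_num)
      (show y ∈ Set.Ioo (-1 : ℝ) 1 from ⟨by linarith [hy.2.1], hy.2.2⟩) hy.2.1
    simp only at h9
    linarith

/-- the real value `p(-1)` is not attained in the disc -/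
lemma eval_neg_one_not_mem {p : ℝ[X]} {N : ℕ} (hp : InClass N p) :
    ((p.eval (-1) : ℝ) : ℂ) ∉ image p := by
  rintro ⟨z, hz, h⟩
  simp only at h
  rw [mem_ball_zero_iff] at hz
  have him : (aeval z p).im = 0 := by rw [h]; simp
  have hz0 : z.im = 0 := by
    rcases lt_trichotomy z.im 0 with h1 | h1 | h1
    · exfalso
      have := typically_real p (deriv_zero hp.2.2.1) hp.2.2.2 (z := starRingEnd ℂ z)
        (by simpa using hz) (by simpa using h1)
      rw [aeval_conj, Complex.conj_im, him] at this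
      simp at this
    · exact h1
    · exfalso
      have := typically_real p (deriv_zero hp.2.2.1) hp.2.2.2 hz h1
      linarith
  have hzr : z = ((z.re : ℝ) : ℂ) := by
    apply Complex.ext <;> simp [hz0]
  have hx : z.re ∈ Set.Ioo (-1 : ℝ) 1 := by
    rw [Set.mem_Ioo, ← abs_lt]
    exact lt_of_le_of_lt (Complex.abs_re_le_norm z) hz
  rw [hzr, aeval_ofReal'] at h
  have h2 : p.eval z.re = p.eval (-1) := by exact_mod_cast h
  have hmono := strictMono_real hp
  -- p(-1) ≤ p((z.re - 1)/2) < p(z.re)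
  set x' : ℝ := (z.re - 1) / 2 with hx'
  have hx'1 : -1 < x' := by rw [hx']; linarith [hx.1]
  have hx'2 : x' < z.re := by rw [hx']; linarith [hx.1, hx.2]
  have hx'3 : x' < 1 := by linarith [hx.2]
  have h3 : p.eval x' < p.eval z.re := hmono ⟨hx'1, hx'3⟩ hx hx'2
  have h4 : p.eval (-1) ≤ p.eval x' := by
    have ht : Filter.Tendsto (fun x : ℝ => p.eval x) (nhdsWithin (-1) (Set.Ioi (-1)))
        (nhds (p.eval (-1))) := (p.continuous.tendsto (-1)).mono_left nhdsWithin_le_nhds
    apply le_of_tendsto ht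
    have : Set.Ioo (-1 : ℝ) x' ∈ nhdsWithin (-1 : ℝ) (Set.Ioi (-1)) := Ioo_mem_nhdsGT hx'1
    filter_upwards [this] with y hy
    exact (hmono ⟨hy.1, by linarith [hy.2]⟩ ⟨hx'1, hx'3⟩ hy.2).le
  linarith

lemma class_reflect {p : ℝ[X]} {N : ℕ} (hp : InClass N p) :
    InClass N (-(p.comp (-X))) := by
  obtain ⟨h1, h2, h3, h4⟩ := hp
  refine ⟨?_, ?_, ?_, ?_⟩
  · rw [natDegree_neg, natDegree_comp, natDegree_neg, natDegree_X, mul_one, h1]
  · rw [coeff_neg, coeff_zero_eq_eval_zero, eval_comp]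
    simp [← coeff_zero_eq_eval_zero, h2]
  · have : (-(p.comp (-X))).coeff 1 = (derivative (-(p.comp (-X)))).eval 0 := by
      rw [← coeff_zero_eq_eval_zero, coeff_derivative]
      simp
    rw [this, derivative_neg, derivative_comp]
    simp [deriv_zero h3]
  · intro z1 hz1 z2 hz2 h
    simp only [map_neg, aeval_comp, aeval_X] at h
    have := h4 (x₁ := -z1) (x₂ := -z2) (by simpa using hz1) (by simpa using hz2) (neg_injective h)
    exact neg_injective this

lemma covers_real {p : ℝ[X]} {N : ℕ} (hN : 1 ≤ N) (hp : InClass N p) {x : ℝ}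
    (hx : |x| < 1 / (4 * Real.cos (Real.pi / ((N : ℝ) + 2)) ^ 2)) : (x : ℂ) ∈ image p := by
  have key : ∀ q : ℝ[X], InClass N q →
      1 / (4 * Real.cos (Real.pi / ((N : ℝ) + 2)) ^ 2) ≤ -(q.eval (-1)) := by
    intro q hq
    apply neg_eval_neg_one_ge q hN hq.1.le hq.2.1 hq.2.2.1
    intro z hz hzi
    exact im_circle_nonneg q (deriv_zero hq.2.2.1) hq.2.2.2 hz hzi
  have h1 := key p hp
  have h2 := key _ (class_reflect hp)
  simp only [eval_neg, eval_comp, eval_X, neg_neg] at h2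
  rw [abs_lt] at hx
  have hcont : ContinuousOn (fun x : ℝ => p.eval x) (Set.Icc (-1) 1) := p.continuous.continuousOn
  have hivt := intermediate_value_Ioo (by norm_num : (-1 : ℝ) ≤ 1) hcont
  obtain ⟨y, hy, hyx⟩ := hivt (show x ∈ Set.Ioo (p.eval (-1)) (p.eval 1) from
    ⟨by linarith [hx.1], by linarith [hx.2]⟩)
  refine ⟨(y : ℂ), ?_, ?_⟩
  · rw [mem_ball_zero_iff, Complex.norm_real, Real.norm_eq_abs, abs_lt]; exact hy
  · simp only
    rw [aeval_ofReal']
    simp only at hyx
    rw [hyx]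

/-- For every `N ≥ 1` put `ρ = 1/(4 cos²(π/(N+2)))`.  Then `ρ` is the largest number such that every
real `x` with `|x| < ρ` lies in `p(D)` for every `p` in the class `P_N`; in particular the Koebe
radius satisfies `R_N ≤ ρ`. -/
theorem result : ∀ N : ℕ, 1 ≤ N →
    IsGreatest {ρ : ℝ | ∀ p : ℝ[X], InClass N p → ∀ x : ℝ, |x| < ρ → (x : ℂ) ∈ image p}
      (1 / (4 * Real.cos (Real.pi / ((N : ℝ) + 2)) ^ 2)) ∧
    koebeRadius N ≤ 1 / (4 * Real.cos (Real.pi / ((N : ℝ) + 2)) ^ 2) := by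
  intro N hN
  have hF := FN_inClass hN
  have hnot := eval_neg_one_not_mem hF
  rw [FN_eval_neg_one hN] at hnot
  set ρ := 1 / (4 * Real.cos (Real.pi / ((N : ℝ) + 2)) ^ 2) with hρ
  have hρ0 : 0 ≤ ρ := by rw [hρ]; positivity
  refine ⟨⟨?_, ?_⟩, ?_⟩
  · intro p hp x hx
    exact covers_real hN hp hx
  · intro r hr
    by_contra hcon
    push Not at hcon
    exact hnot (hr (FN N) hF (-ρ) (by rwa [abs_neg, abs_of_nonneg hρ0]))
  · apply csSup_le
    · refine ⟨0, ?_⟩
      intro p _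
      simp
    · intro r hr
      by_contra hcon
      push Not at hcon
      apply hnot
      apply hr (FN N) hF
      rw [mem_ball_zero_iff, Complex.norm_real, Real.norm_eq_abs, abs_neg, abs_of_nonneg hρ0]
      exact hcon

end Pool.Agent.Results.MP_6cc408_an.RealAxisSharp
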