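import Mathlib
import Pool.Agent.Helper809.Koe.Wrap
import Pool.Agent.Helper499.N5Mid

set_option autoImplicit false

open Polynomial

namespace Pool.Agent.Results.MP_6cc408_an.KoebeRadiusExact

/-- The class `P_N`: polynomials of degree `N` with real coefficients, `p(0) = 0`, `p'(0) = 1`,
which are injective on the open unit disc. -/
def Univalent (N : ℕ) (p : ℝ[X]) : Prop :=
  p.natDegree = N ∧ p.coeff 0 = 0 ∧ p.coeff 1 = 1 ∧
    Set.InjOn (fun z : ℂ => aeval z p) (Metric.ball (0 : ℂ) 1)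

/-- The image `p(D)` of the open unit disc. -/
def discImage (p : ℝ[X]) : Set ℂ := (fun z : ℂ => aeval z p) '' Metric.ball (0 : ℂ) 1

/-- The Koebe radius `r(p) = dist(0, ∂ p(D))` of a polynomial. -/
noncomputable def radius (p : ℝ[X]) : ℝ := Metric.infDist (0 : ℂ) (frontier (discImage p))

/-- The Koebe radius `R_N = inf r(p)` of the class `P_N`. -/
noncomputable def classRadius (N : ℕ) : ℝ := sInf {r : ℝ | ∃ p : ℝ[X], Univalent N p ∧ r = radius p}

/-- For every `N ≥ 1` the Koebe radius of the class of univalent real polynomials of degree `N` is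
`1 / (4 cos² (π/(N+2)))`; the infimum is attained, and the disc of that radius is covered by every
`p` of the class. -/
theorem result : ∀ N : ℕ, 1 ≤ N →
    classRadius N = 1 / (4 * Real.cos (Real.pi / ((N : ℝ) + 2)) ^ 2) ∧
    IsLeast {r : ℝ | ∃ p : ℝ[X], Univalent N p ∧ r = radius p}
      (1 / (4 * Real.cos (Real.pi / ((N : ℝ) + 2)) ^ 2)) ∧
    (∀ p : ℝ[X], Univalent N p →
      Metric.ball (0 : ℂ) (1 / (4 * Real.cos (Real.pi / ((N : ℝ) + 2)) ^ 2)) ⊆ discImage p) := by
  intro N hN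
  have hcov : ∀ p : ℝ[X], Univalent N p →
      Metric.ball (0 : ℂ) (1 / (4 * Real.cos (Real.pi / ((N : ℝ) + 2)) ^ 2)) ⊆ discImage p := by
    intro p hp
    exact Pool.Agent.Helper809.Koe.covers hN (fun p ρ δ s hb =>
      Pool.Agent.Helper809.Koe.no_bad hN (fun p ρ δ s hb h => Pool.Agent.Helper499.KB.n5_mid hb h) hb) hp
  have hle : ∀ p : ℝ[X], Univalent N p →
      1 / (4 * Real.cos (Real.pi / ((N : ℝ) + 2)) ^ 2) ≤ radius p := by
    intro p hp
    exact Pool.Agent.Helper809.Koe.le_infDist_of_ball hp (hcov p hp)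
  have hF : Univalent N (Pool.Agent.Helper766.FN N) :=
    Pool.Agent.Results.MP_6cc408_an.RealAxisSharp.FN_inClass hN
  have hleast : IsLeast {r : ℝ | ∃ p : ℝ[X], Univalent N p ∧ r = radius p}
      (1 / (4 * Real.cos (Real.pi / ((N : ℝ) + 2)) ^ 2)) := by
    constructor
    · exact ⟨_, hF, le_antisymm (hle _ hF) (Pool.Agent.Helper809.Koe.infDist_FN hN)⟩
    · rintro r ⟨p, hp, rfl⟩
      exact hle p hp
  exact ⟨hleast.csInf_eq, hleast, hcov⟩

end Pool.Agent.Results.MP_6cc408_an.KoebeRadiusExact
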